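import Pool.Agent.Helper30.LK.All
import Pool.Agent.Helper71.LY.M_SRY
import Pool.Agent.Helper51.LY.M_FNY

/-!
# Project LY: assembly
-/

set_option autoImplicit false

namespace Pool.Agent.Helper30.LY

open Pool.Agent

theorem pFNY : StFNY := Helper51.LY.hFNY (Helper71.LY.hSRY Helper30.LK.pSVU Helper15.AB.hMT) Helper30.PB.pPIP

end Pool.Agent.Helper30.LY
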