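import Pool.Agent.Helper30.LK.St

/-!
# Project LY (MP_5e9b96_nt): for infinitely many `n` no admissible pair has `y ≤ c log n (log log n) ^ 2`.
Statements of the modules, with proofs.  Models: project LW (`Pool/Agent/Helper30/LW/St.lean`, `Helper27/LW/M_SRW.lean`,
`Helper44/LW/M_FNW.lean`) and `Helper44/LK/M_CN1.lean`.
For `n ≡ - 4 (mod l)`: `(n - y) + n y ≡ - (5 y + 4)` and `(n - y) ^ 2 + n y ^ 2 ≡ (y + 4) ^ 2 - 4 y ^ 2 = (4 - y)(3 y + 4)`.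
-/

set_option autoImplicit false

noncomputable section

namespace Pool.Agent.Helper30.LY

open Finset
open Pool.Agent.Helper15.AB (StMT)
open Pool.Agent.Helper30.PB (StPIP)
open Pool.Agent.Helper30.LK (StSVU)

open Classical in
/-- the `y ≤ K` such that no prime `7 ≤ l ≤ x / 2` divides `(5 y + 4)(y - 4)(3 y + 4)` -/
def Sy (x K : ℕ) : Finset ℕ :=
  (Icc 1 K).filter (fun y => ∀ l : ℕ, l.Prime → 7 ≤ l → 2 * l ≤ x →
    ¬ (l : ℤ) ∣ (5 * (y : ℤ) + 4) * ((y : ℤ) - 4) * (3 * (y : ℤ) + 4))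

/-- (SRY, assume `hS : StSVU`, `hM : StMT`.) PROOF. StSVU with `Y = K`, `S l` = the classes `s < l` with `l ∣ (5 s + 4)(s - 4)(3 s + 4)` (exactly three different classes `4`, `- 4 / 5`, `- 4 / 3` for the primes `l ≥ 7`: the differences of any two are `24 / 5`, `16 / 3`, `8 / 15` up to sign).
`K ^ δ ≤ K ^ (1/4) ≤ x ^ (1/2) ≤ x / 2`, so the elements of `Sy x K` are counted by StSVU (see `M_SRW`). `∑_{7 ≤ l ≤ K ^ δ} 3 / l ≥ 3 log log K - C'` (StMT; `log (K ^ δ) = δ log K`, the primes 2, 3, 5 and small `K` change `C'` only), and `exp(- 3 log log K + C') = e ^ C' / (log K) ^ 3`. For small `K` (`K ^ δ < 7`) use the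
trivial bound `|Sy x K| ≤ K` and a large `C`. -/
def StSRY : Prop := ∃ C : ℝ, 0 < C ∧ ∀ x K : ℕ, 4 ≤ x → 2 ≤ K → K ≤ x ^ 2 → ((Sy x K).card : ℝ) ≤ C * (K / Real.log K ^ 3)

/-- (FNY, assume `hS : StSRY`, `hP : StPIP`.) PROOF. As `Helper44/LW/M_FNW.lean`. `K = ⌊c₁ x (log x) ^ 2⌋`, `x ≤ K ≤ x ^ 2` for large `x`, so by SRY `|Sy x K| ≤ C c₁ x (log x) ^ 2 / (log x) ^ 3 ≤ x / (64 log x)` for `c₁ = min(1, 1 / (64 C))`, and by PIP (`Q = 1`) there are at least `x / (16 log x)` primes in `(x / 2, x]`.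
Choose an injection `y ↦ l_y` of `Sy x K` into these primes with `l_y ∤ y + 1` (`y + 1 ≤ x ^ 2 + 1 < (x / 2) ^ 3` has at most two prime divisors in `(x / 2, x]`; choose the `l_y` one after the other). By the Chinese remainder theorem there is `n ∈ [P, 2 P)`, `P = ∏_{7 ≤ l ≤ x} l`, with
`n ≡ - 4` modulo `l` for the primes `7 ≤ l ≤ x / 2` and `n (y + 1) ≡ y` modulo `l_y` for `y ∈ Sy x K`. For `l ≤ x / 2`: `((n - y) + n y)((n - y) ^ 2 + n y ^ 2) ≡ (5 y + 4)(y - 4)(3 y + 4)` modulo `l`, and `l_y ∣ n (y + 1) - y = (n - y) + n y`. So for every `1 ≤ y ≤ K` a prime `l ≤ x` divides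
one of the two numbers, which are `≥ n > x` (`y ≤ K < n`, `(n - y) + n y ≥ n`, `n y ^ 2 ≥ n`), so this number is not prime. `log n ≤ log (2 P) ≤ 2 x` (`primorial_le_4_pow`) and `log n ≥ x / 40` (the primes in `(x / 2, x]`), so `n ≥ n₀` for large `x` and
`log n (log log n) ^ 2 ≤ 2 x (2 log x) ^ 2`; `c = c₁ / 16`. -/
def StFNY : Prop := ∃ c : ℝ, 0 < c ∧ ∀ n₀ : ℕ, ∃ n : ℕ, n₀ ≤ n ∧ ∀ y : ℕ, 1 ≤ y →
  (y : ℝ) ≤ c * (Real.log n * Real.log (Real.log n) ^ 2) →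
    y < n ∧ ¬ (((n - y) + n * y).Prime ∧ ((n - y) ^ 2 + n * y ^ 2).Prime)

end Pool.Agent.Helper30.LY
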